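import Mathlib

set_option autoImplicit false

namespace Pool.Agent.Results.MP_44775e_co.StrongChi

/-- The number of parts, the ceiling of `n / k`. -/
def parts (n k : ℕ) : ℕ := (n + k - 1) / k

/-- `G` is strongly `k`-colourable: add isolated vertices up to a multiple of `k`; for every
partition into parts of size `k`, the union of `G` with cliques on the parts is `k`-colourable. -/
def StronglyColorable {n : ℕ} (G : SimpleGraph (Fin n)) (k : ℕ) : Prop :=
  ∀ P : Fin n ⊕ Fin (k * parts n k - n) → Fin (parts n k),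
    (∀ j, {x | P x = j}.ncard = k) →
      ((G.sum ⊥) ⊔ SimpleGraph.fromRel (fun x y => P x = P y)).Colorable k

/-- The strong chromatic number. -/
noncomputable def strongChi {n : ℕ} (G : SimpleGraph (Fin n)) : ℕ :=
  sInf {k | 0 < k ∧ StronglyColorable G k}

/-- The biclique number. -/
noncomputable def bicliqueNum {n : ℕ} (G : SimpleGraph (Fin n)) : ℕ :=
  max 1 (sSup {s | ∃ a b : ℕ, 1 ≤ a ∧ 1 ≤ b ∧ s = a + b ∧
    (completeBipartiteGraph (Fin a) (Fin b)).IsContained G})

def adjN (x y : ℕ) : Bool :=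
  if x < 28 then decide (y < 28) && decide (10 ≤ (x + 28 - y) % 28) && decide ((x + 28 - y) % 28 ≤ 18)
  else if x < 56 then decide (28 ≤ y) && decide (y < 56) && decide (10 ≤ (x + 28 - y) % 28) &&
    decide ((x + 28 - y) % 28 ≤ 18)
  else if x < 61 then decide (61 ≤ y) else decide (56 ≤ y) && decide (y < 61)

theorem adj_symm : ∀ x y : Fin 66, adjN x.val y.val = true → adjN y.val x.val = true := by
  decide +kernel

theorem adj_irrefl : ∀ x : Fin 66, ¬ adjN x.val x.val = true := by decide +kernel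

def G : SimpleGraph (Fin 66) where
  Adj x y := adjN x.val y.val = true
  symm := ⟨adj_symm⟩
  loopless := ⟨adj_irrefl⟩

def key (b x : ℕ) : ℕ := (x + 74 - b) % 28

def chk : Bool :=
  (List.range 66).all fun b => ((List.range 66).filter (adjN b)).all fun a1 =>
    ((List.range 66).filter (adjN b)).all fun a2 =>
      decide (((List.range 66).filter (fun x => adjN b x &&
        (decide (key b a1 ≤ key b x) && decide (key b x ≤ key b a2)))).length +
        ((List.range 66).filter (fun y => adjN a1 y && adjN a2 y)).length ≤ 10)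

theorem chk_ok : chk = true := by decide +kernel

theorem card_le (S : Finset (Fin 66)) (p : ℕ → Bool) (h : ∀ x ∈ S, p x.val = true) :
    S.card ≤ ((List.range 66).filter p).length := by
  rw [← Finset.card_image_of_injective S Fin.val_injective]
  refine le_trans (Finset.card_le_card ?_) (List.toFinset_card_le _)
  intro y hy
  obtain ⟨x, hx, rfl⟩ := Finset.mem_image.1 hy
  simp only [List.mem_toFinset, List.mem_filter, List.mem_range]
  exact ⟨x.2, h x hx⟩

theorem bi_le (A B : Finset (Fin 66)) (hA : A.Nonempty) (hB : B.Nonempty)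
    (h : ∀ a ∈ A, ∀ b ∈ B, G.Adj a b) : A.card + B.card ≤ 10 := by
  obtain ⟨b, hb⟩ := hB
  obtain ⟨a1, h1, m1⟩ := A.exists_min_image (fun x => key b.val x.val) hA
  obtain ⟨a2, h2, m2⟩ := A.exists_max_image (fun x => key b.val x.val) hA
  have hc := chk_ok
  unfold chk at hc
  simp only [List.all_eq_true, decide_eq_true_eq] at hc
  have hc' := hc b.val (List.mem_range.2 b.2) a1.val
    (List.mem_filter.2 ⟨List.mem_range.2 a1.2, (h a1 h1 b hb).symm⟩) a2.val
    (List.mem_filter.2 ⟨List.mem_range.2 a2.2, (h a2 h2 b hb).symm⟩)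
  refine le_trans (Nat.add_le_add (card_le A _ ?_) (card_le B _ ?_)) hc'
  · intro x hx
    have e : adjN b.val x.val = true := (h x hx b hb).symm
    simp only [e, Bool.true_and, Bool.and_eq_true, decide_eq_true_eq]
    exact ⟨m1 x hx, m2 x hx⟩
  · intro y hy
    have e1 : adjN a1.val y.val = true := h a1 h1 y hy
    have e2 : adjN a2.val y.val = true := h a2 h2 y hy
    simp only [e1, e2, Bool.and_self]

theorem omega_le : bicliqueNum G ≤ 10 := by
  apply max_le (by norm_num)
  apply csSup_le'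
  rintro s ⟨a, b, ha, hb, rfl, ⟨f⟩⟩
  have hA : (Finset.univ.image (fun i : Fin a => f (Sum.inl i))).card = a := by
    exact (Finset.card_image_of_injective _ (f.injective.comp Sum.inl_injective)).trans (by simp)
  have hB : (Finset.univ.image (fun i : Fin b => f (Sum.inr i))).card = b := by
    exact (Finset.card_image_of_injective _ (f.injective.comp Sum.inr_injective)).trans (by simp)
  refine le_trans (le_of_eq (congrArg₂ _ hA.symm hB.symm)) (bi_le _ _ ?_ ?_ ?_)
  · exact Finset.card_pos.1 (by omega)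
  · exact Finset.card_pos.1 (by omega)
  · intro x hx y hy
    obtain ⟨i, -, rfl⟩ := Finset.mem_image.1 hx
    obtain ⟨j, -, rfl⟩ := Finset.mem_image.1 hy
    exact f.toHom.map_adj (by simp)

def idx {r : ℕ} : Fin 66 ⊕ Fin r → ℕ
  | Sum.inl u => u.val
  | Sum.inr j => 66 + j.val

theorem rainbow (k : ℕ) (f : ℕ → ℕ)
    (hf : ∀ x : Fin 66 ⊕ Fin (k * parts 66 k - 66), f (idx x) < parts 66 k)
    (hfib : ∀ j : Fin (parts 66 k), (Finset.univ.filter
      (fun x : Fin 66 ⊕ Fin (k * parts 66 k - 66) => f (idx x) = j.val)).card = k)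
    (hsc : StronglyColorable G k) :
    ∃ c : Fin 66 ⊕ Fin (k * parts 66 k - 66) → Fin k,
      (∀ x y, idx x < 66 → idx y < 66 → adjN (idx x) (idx y) = true → c x ≠ c y) ∧
      ∀ j, j < parts 66 k → ∀ col, ∃ x, f (idx x) = j ∧ c x = col := by
  classical
  obtain ⟨c⟩ := hsc (fun x => ⟨f (idx x), hf x⟩) (by
    intro j
    refine Eq.trans ?_ (hfib j)
    rw [← Set.ncard_coe_finset]
    congr 1
    ext x
    simp [Fin.ext_iff])
  refine ⟨c, ?_, ?_⟩
  · rintro (x | x) (y | y) hx hy h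
    · exact c.valid (Or.inl h)
    · simp [idx] at hy
    · simp [idx] at hx
    · simp [idx] at hx
  · intro j hj col
    have hinj : Set.InjOn c (Finset.univ.filter
        (fun x : Fin 66 ⊕ Fin (k * parts 66 k - 66) => f (idx x) = j) : Finset _) := by
      intro x hx y hy hxy
      by_contra hne
      have e : f (idx x) = f (idx y) :=
        (Finset.mem_filter.1 hx).2.trans (Finset.mem_filter.1 hy).2.symm
      exact c.valid (Or.inr ((SimpleGraph.fromRel_adj _ _ _).2 ⟨hne, Or.inl (Fin.ext e)⟩)) hxy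
    have hc := Finset.card_image_of_injOn hinj
    rw [hfib ⟨j, hj⟩] at hc
    have hu := Finset.eq_univ_of_card _ (hc.trans (Fintype.card_fin k).symm)
    have hm : col ∈ Finset.image c (Finset.univ.filter
        (fun x : Fin 66 ⊕ Fin (k * parts 66 k - 66) => f (idx x) = j)) := by
      rw [hu]
      exact Finset.mem_univ _
    obtain ⟨x, hx, e⟩ := Finset.mem_image.1 hm
    exact ⟨x, (Finset.mem_filter.1 hx).2, e⟩

theorem nb18 : ∀ u, u < 9 → adjN u 18 = true := by decide

theorem small (k : ℕ) (h0 : 0 < k) (h9 : k ≤ 9) : ¬ StronglyColorable G k := by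
  intro hsc
  obtain ⟨c, hc, hr⟩ := rainbow k (fun i => i / k)
    (by interval_cases k <;> decide +kernel) (by interval_cases k <;> decide +kernel) hsc
  obtain ⟨x, hx, e⟩ := hr 0 (by interval_cases k <;> decide) (c (Sum.inl 18))
  have hlt : idx x < 9 := by
    have := (Nat.div_eq_zero_iff_lt h0).1 hx
    omega
  exact hc x (Sum.inl 18) (by omega) (by simp [idx]) (nb18 _ hlt) e

def base (i : ℕ) : ℕ :=
  if i < 9 then 0 else if i < 18 then 1 else if i < 28 then 2 else if i < 37 then 3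
  else if i < 46 then 4 else 5

def f11 (i : ℕ) : ℕ :=
  if i < 56 then base i else if i < 58 then 0 else if i < 60 then 1 else if i < 61 then 2
  else if i < 63 then 3 else if i < 65 then 4 else 5

def f10 (i : ℕ) : ℕ :=
  if i < 56 then base i else if i = 56 then 0 else if i = 57 then 1 else if i = 61 then 3
  else if i = 62 then 4 else 6

set_option synthInstance.maxSize 2000 in
theorem tri1 : ∀ x, x < 9 → ∀ y, y < 18 → 9 ≤ y → ∀ z, z < 28 → 18 ≤ z →
    adjN x y = true ∨ adjN y z = true ∨ adjN x z = true := by decide +kernel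

set_option synthInstance.maxSize 2000 in
theorem tri2 : ∀ x, x < 37 → 28 ≤ x → ∀ y, y < 46 → 37 ≤ y → ∀ z, z < 56 → 46 ≤ z →
    adjN x y = true ∨ adjN y z = true ∨ adjN x z = true := by decide +kernel

theorem ab : ∀ x, x < 61 → 56 ≤ x → ∀ y, y < 66 → 61 ≤ y → adjN x y = true := by decide +kernel

theorem noIT (x : Fin 6 → ℕ) (hind : ∀ i j, ¬ adjN (x i) (x j) = true)
    (h0 : x 0 < 9 ∨ (56 ≤ x 0 ∧ x 0 < 61)) (h1 : (9 ≤ x 1 ∧ x 1 < 18) ∨ (56 ≤ x 1 ∧ x 1 < 61))
    (h2 : (18 ≤ x 2 ∧ x 2 < 28) ∨ (56 ≤ x 2 ∧ x 2 < 61))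
    (h3 : (28 ≤ x 3 ∧ x 3 < 37) ∨ (61 ≤ x 3 ∧ x 3 < 66))
    (h4 : (37 ≤ x 4 ∧ x 4 < 46) ∨ (61 ≤ x 4 ∧ x 4 < 66))
    (h5 : (46 ≤ x 5 ∧ x 5 < 56) ∨ (61 ≤ x 5 ∧ x 5 < 66)) : False := by
  have hA : ∃ i, 56 ≤ x i ∧ x i < 61 := by
    rcases h0 with h0 | h0
    · rcases h1 with h1 | h1
      · rcases h2 with h2 | h2
        · rcases tri1 _ h0 _ h1.2 h1.1 _ h2.2 h2.1 with h | h | h <;> exact absurd h (hind _ _)
        · exact ⟨2, h2⟩
      · exact ⟨1, h1⟩
    · exact ⟨0, h0⟩
  have hB : ∃ i, 61 ≤ x i ∧ x i < 66 := by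
    rcases h3 with h3 | h3
    · rcases h4 with h4 | h4
      · rcases h5 with h5 | h5
        · rcases tri2 _ h3.2 h3.1 _ h4.2 h4.1 _ h5.2 h5.1 with h | h | h <;>
            exact absurd h (hind _ _)
        · exact ⟨5, h5⟩
      · exact ⟨4, h4⟩
    · exact ⟨3, h3⟩
  obtain ⟨i, hi⟩ := hA
  obtain ⟨j, hj⟩ := hB
  exact hind i j (ab _ hi.2 hi.1 _ hj.2 hj.1)

theorem big (k : ℕ) (f : ℕ → ℕ) (hk : 0 < k) (h6 : 6 ≤ parts 66 k)
    (hf : ∀ x : Fin 66 ⊕ Fin (k * parts 66 k - 66), f (idx x) < parts 66 k)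
    (hfib : ∀ j : Fin (parts 66 k), (Finset.univ.filter
      (fun x : Fin 66 ⊕ Fin (k * parts 66 k - 66) => f (idx x) = j.val)).card = k)
    (hs : ∀ x : Fin 66 ⊕ Fin (k * parts 66 k - 66),
      (f (idx x) = 0 → idx x < 9 ∨ (56 ≤ idx x ∧ idx x < 61)) ∧
      (f (idx x) = 1 → (9 ≤ idx x ∧ idx x < 18) ∨ (56 ≤ idx x ∧ idx x < 61)) ∧
      (f (idx x) = 2 → (18 ≤ idx x ∧ idx x < 28) ∨ (56 ≤ idx x ∧ idx x < 61)) ∧
      (f (idx x) = 3 → (28 ≤ idx x ∧ idx x < 37) ∨ (61 ≤ idx x ∧ idx x < 66)) ∧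
      (f (idx x) = 4 → (37 ≤ idx x ∧ idx x < 46) ∨ (61 ≤ idx x ∧ idx x < 66)) ∧
      (f (idx x) = 5 → (46 ≤ idx x ∧ idx x < 56) ∨ (61 ≤ idx x ∧ idx x < 66))) :
    ¬ StronglyColorable G k := by
  intro hsc
  obtain ⟨c, hc, hr⟩ := rainbow k f hf hfib hsc
  choose x hx hcx using fun j : Fin 6 => hr j.val (by omega) ⟨0, hk⟩
  have h0 := (hs (x 0)).1 (hx 0)
  have h1 := (hs (x 1)).2.1 (hx 1)
  have h2 := (hs (x 2)).2.2.1 (hx 2)
  have h3 := (hs (x 3)).2.2.2.1 (hx 3)
  have h4 := (hs (x 4)).2.2.2.2.1 (hx 4)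
  have h5 := (hs (x 5)).2.2.2.2.2 (hx 5)
  have hlt : ∀ j, idx (x j) < 66 := by
    intro j
    fin_cases j
    · change idx (x 0) < 66
      omega
    · change idx (x 1) < 66
      omega
    · change idx (x 2) < 66
      omega
    · change idx (x 3) < 66
      omega
    · change idx (x 4) < 66
      omega
    · change idx (x 5) < 66
      omega
  exact noIT (fun j => idx (x j))
    (fun i j h => hc _ _ (hlt i) (hlt j) h ((hcx i).trans (hcx j).symm)) h0 h1 h2 h3 h4 h5

theorem not10 : ¬ StronglyColorable G 10 :=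
  big 10 f10 (by decide) (by decide) (by decide +kernel) (by decide +kernel) (by decide +kernel)

theorem not11 : ¬ StronglyColorable G 11 :=
  big 11 f11 (by decide) (by decide) (by decide +kernel) (by decide +kernel) (by decide +kernel)

theorem sc66 : StronglyColorable G 66 := by
  intro P _
  have h := SimpleGraph.colorable_of_fintype
    ((G.sum ⊥) ⊔ SimpleGraph.fromRel (fun x y => P x = P y))
  have e : Fintype.card (Fin 66 ⊕ Fin (66 * parts 66 66 - 66)) = 66 := by
    simp [parts]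
  rwa [e] at h

theorem result : ∃ (n : ℕ) (G : SimpleGraph (Fin n)), bicliqueNum G + 2 ≤ strongChi G := by
  refine ⟨66, G, ?_⟩
  have h1 := omega_le
  have h2 : 0 < strongChi G ∧ StronglyColorable G (strongChi G) :=
    Nat.sInf_mem (s := {k | 0 < k ∧ StronglyColorable G k}) ⟨66, by decide, sc66⟩
  by_contra hlt
  have h3 : strongChi G ≤ 9 ∨ strongChi G = 10 ∨ strongChi G = 11 := by omega
  rcases h3 with h | h | h
  · exact small _ h2.1 h h2.2
  · exact not10 (h ▸ h2.2)
  · exact not11 (h ▸ h2.2)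

end Pool.Agent.Results.MP_44775e_co.StrongChi
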